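import Mathlib
import Pool.Agent.MP_6132b6_co.Defs

-- part MP_6132b6_co.Fourier
section

namespace Pool.Agent.MP_6132b6_co

open Finset

abbrev X := ZMod 2 × ZMod 2

def e (a b : X) : ℤ := if a.1 * b.1 + a.2 * b.2 = 0 then 1 else -1

def q (b : X) : ℤ := if b.1 * b.2 = 0 then 1 else -1

theorem e_add : ∀ a a' b : X, e (a + a') b = e a b * e a' b := by decide
theorem e_comm : ∀ a b : X, e a b = e b a := by decide
theorem e_zero : ∀ b : X, e 0 b = 1 := by decide
theorem e_pm : ∀ a b : X, e a b = 1 ∨ e a b = -1 := by decide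
theorem q_pm : ∀ b : X, q b = 1 ∨ q b = -1 := by decide
theorem q_zero : q 0 = 1 := by decide
theorem sum_e : ∀ a : X, ∑ b, e a b = if a = 0 then 4 else 0 := by decide
theorem sum_eq : ∀ a : X, |∑ b, e a b * q b| = 2 := by decide
theorem X_add_self : ∀ a : X, a + a = 0 := by decide

theorem prod_pm {ι : Type*} (s : Finset ι) (f : ι → ℤ) (h : ∀ t ∈ s, f t = 1 ∨ f t = -1) :
    ∏ t ∈ s, f t = 1 ∨ ∏ t ∈ s, f t = -1 := by
  classical
  induction s using Finset.induction_on with
  | empty => simp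
  | insert a s ha ih =>
    rw [Finset.prod_insert ha]
    have h1 := h a (by simp)
    have h2 := ih (fun t ht => h t (by simp [ht]))
    rcases h1 with h1 | h1 <;> rcases h2 with h2 | h2 <;> simp [h1, h2]

variable {κ : Type} [Fintype κ] [DecidableEq κ]

def chi (i j : κ → X) : ℤ := ∏ t, e (i t) (j t)

omit [DecidableEq κ] in
theorem chi_add (i i' j : κ → X) : chi (i + i') j = chi i j * chi i' j := by
  simp [chi, e_add, Finset.prod_mul_distrib]

omit [DecidableEq κ] in
theorem chi_comm (i j : κ → X) : chi i j = chi j i := by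
  simp only [chi]
  exact Finset.prod_congr rfl (fun t _ => e_comm _ _)

omit [DecidableEq κ] in
theorem chi_zero (j : κ → X) : chi 0 j = 1 := by
  simp [chi, e_zero]

omit [DecidableEq κ] in
theorem chi_zero' (j : κ → X) : chi j 0 = 1 := by
  rw [chi_comm, chi_zero]

omit [DecidableEq κ] in
theorem chi_pm (i j : κ → X) : chi i j = 1 ∨ chi i j = -1 :=
  prod_pm _ _ (fun _ _ => e_pm _ _)

omit [Fintype κ] [DecidableEq κ] in
theorem add_eq_zero_iff' (i j : κ → X) : i + j = 0 ↔ i = j := by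
  constructor
  · intro h
    have h2 : j + j = 0 := by
      funext t
      exact X_add_self _
    exact add_right_cancel (h.trans h2.symm)
  · rintro rfl
    funext t
    exact X_add_self _

theorem sum_prod_pi (g : κ → X → ℤ) : ∑ j : κ → X, ∏ t, g t (j t) = ∏ t, ∑ b, g t b := by
  rw [Finset.prod_univ_sum]
  simp

theorem card_G : (Fintype.card (κ → X) : ℤ) = 4 ^ Fintype.card κ := by
  simp [X]

theorem sum_chi (i : κ → X) :
    ∑ j, chi i j = if i = 0 then (Fintype.card (κ → X) : ℤ) else 0 := by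
  simp only [chi]
  rw [sum_prod_pi (fun t b => e (i t) b)]
  simp only [sum_e]
  split_ifs with h
  · subst h
    rw [card_G]
    simp
  · obtain ⟨t, ht⟩ := Function.ne_iff.mp h
    exact Finset.prod_eq_zero (Finset.mem_univ t) (by simpa using ht)

noncomputable def hat (F : (κ → X) → ℝ) (i : κ → X) : ℝ := ∑ j, (chi i j : ℝ) * F j

theorem hat_inv (F : (κ → X) → ℝ) (j : κ → X) :
    ∑ i, hat F i * (chi i j : ℝ) = (Fintype.card (κ → X) : ℝ) * F j := by
  have h1 : ∀ j' : κ → X, ∑ i, (chi i j' : ℝ) * (chi i j : ℝ)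
      = if j' = j then (Fintype.card (κ → X) : ℝ) else 0 := by
    intro j'
    have h := sum_chi (j' + j)
    simp only [chi_add, add_eq_zero_iff'] at h
    have h2 : ∑ i, (chi i j' : ℝ) * (chi i j : ℝ) = ((∑ i, chi j' i * chi j i : ℤ) : ℝ) := by
      push_cast
      exact Finset.sum_congr rfl (fun i _ => by rw [chi_comm i j', chi_comm i j])
    rw [h2, h]
    split_ifs <;> simp
  calc ∑ i, hat F i * (chi i j : ℝ)
      = ∑ i, ∑ j', F j' * ((chi i j' : ℝ) * (chi i j : ℝ)) := by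
        refine Finset.sum_congr rfl (fun i _ => ?_)
        rw [hat, Finset.sum_mul]
        exact Finset.sum_congr rfl (fun j' _ => by ring)
    _ = ∑ j', F j' * ∑ i, (chi i j' : ℝ) * (chi i j : ℝ) := by
        rw [Finset.sum_comm]
        exact Finset.sum_congr rfl (fun j' _ => by rw [Finset.mul_sum])
    _ = _ := by
        simp only [h1, mul_ite, mul_zero, Finset.sum_ite_eq', Finset.mem_univ, if_true]
        ring

theorem hat_mul (F φ : (κ → X) → ℝ) (i' : κ → X) :
    (Fintype.card (κ → X) : ℝ) * hat (fun j => F j * φ j) i'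
      = ∑ i, hat F i * hat φ (i + i') := by
  calc (Fintype.card (κ → X) : ℝ) * hat (fun j => F j * φ j) i'
      = ∑ j, (chi i' j : ℝ) * φ j * ∑ i, hat F i * (chi i j : ℝ) := by
        rw [hat, Finset.mul_sum]
        refine Finset.sum_congr rfl (fun j _ => ?_)
        rw [hat_inv]
        ring
    _ = ∑ j, ∑ i, hat F i * ((chi (i + i') j : ℝ) * φ j) := by
        refine Finset.sum_congr rfl (fun j _ => ?_)
        rw [Finset.mul_sum]
        refine Finset.sum_congr rfl (fun i _ => ?_)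
        rw [chi_add]
        push_cast
        ring
    _ = _ := by
        rw [Finset.sum_comm]
        refine Finset.sum_congr rfl (fun i _ => ?_)
        rw [← Finset.mul_sum]
        rfl

theorem card_pos' : (0 : ℝ) < Fintype.card (κ → X) := by
  exact_mod_cast Fintype.card_pos

theorem hat_zero (F : (κ → X) → ℝ) : hat F 0 = ∑ j, F j := by
  simp [hat, chi_zero]

theorem sum_hat (F : (κ → X) → ℝ) : ∑ i, hat F i = (Fintype.card (κ → X) : ℝ) * F 0 := by
  rw [← hat_inv]
  simp [chi_zero']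

/-- multiplying by a positive definite function keeps Fourier coefficients small -/
theorem small_mul (F φ : (κ → X) → ℝ) (η : ℝ) (hF : ∀ i, 0 ≤ hat F i)
    (hφ : ∀ i, |hat φ i| ≤ η) (i' : κ → X) : |hat (fun j => F j * φ j) i'| ≤ F 0 * η := by
  have hM := card_pos' (κ := κ)
  have h1 : (Fintype.card (κ → X) : ℝ) * |hat (fun j => F j * φ j) i'|
      ≤ (Fintype.card (κ → X) : ℝ) * (F 0 * η) := by
    calc (Fintype.card (κ → X) : ℝ) * |hat (fun j => F j * φ j) i'|
        = |∑ i, hat F i * hat φ (i + i')| := by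
          rw [← hat_mul, abs_mul, abs_of_pos hM]
      _ ≤ ∑ i, |hat F i * hat φ (i + i')| := Finset.abs_sum_le_sum_abs _ _
      _ ≤ ∑ i, hat F i * η := by
          refine Finset.sum_le_sum (fun i _ => ?_)
          rw [abs_mul, abs_of_nonneg (hF i)]
          exact mul_le_mul_of_nonneg_left (hφ _) (hF i)
      _ = _ := by
          rw [← Finset.sum_mul, sum_hat]
          ring
  exact le_of_mul_le_mul_left h1 hM

theorem pos_mul (F φ : (κ → X) → ℝ) (hF : ∀ i, 0 ≤ hat F i) (hφ : ∀ i, 0 ≤ hat φ i)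
    (i' : κ → X) : 0 ≤ hat (fun j => F j * φ j) i' := by
  have hM := card_pos' (κ := κ)
  have h1 : 0 ≤ (Fintype.card (κ → X) : ℝ) * hat (fun j => F j * φ j) i' := by
    rw [hat_mul]
    exact Finset.sum_nonneg (fun i _ => mul_nonneg (hF i) (hφ _))
  exact nonneg_of_mul_nonneg_right h1 hM |> fun h => by
    by_contra hc
    push Not at hc
    nlinarith

theorem corr (F φ : (κ → X) → ℝ) (hF : ∀ i, 0 ≤ hat F i) (hφ : ∀ i, 0 ≤ hat φ i) :
    (∑ j, F j) * (∑ j, φ j) ≤ (Fintype.card (κ → X) : ℝ) * ∑ j, F j * φ j := by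
  rw [← hat_zero (fun j => F j * φ j), hat_mul, ← hat_zero, ← hat_zero]
  have := Finset.single_le_sum (f := fun i => hat F i * hat φ (i + 0))
    (fun i _ => mul_nonneg (hF i) (hφ _)) (Finset.mem_univ (0 : κ → X))
  simpa using this

theorem hat_sub (F φ : (κ → X) → ℝ) (z : ℝ) (i : κ → X) :
    hat (fun j => (F j - z) * φ j) i = hat (fun j => F j * φ j) i - z * hat φ i := by
  simp only [hat, Finset.mul_sum, ← Finset.sum_sub_distrib]
  exact Finset.sum_congr rfl (fun j _ => by ring)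

theorem small_sub (F φ : (κ → X) → ℝ) (η τ z : ℝ) (hF : ∀ i, 0 ≤ hat F i) (hF0 : F 0 = τ)
    (hz : |z| ≤ τ) (hφ : ∀ i, |hat φ i| ≤ η) (i : κ → X) :
    |hat (fun j => (F j - z) * φ j) i| ≤ 2 * τ * η := by
  rw [hat_sub]
  have h1 := small_mul F φ η hF hφ i
  have hη : 0 ≤ η := le_trans (abs_nonneg _) (hφ 0)
  have h2 : |z * hat φ i| ≤ τ * η := by
    rw [abs_mul]
    exact mul_le_mul hz (hφ i) (abs_nonneg _) (le_trans (abs_nonneg _) hz)
  have h3 := abs_sub (hat (fun j => F j * φ j) i) (z * hat φ i)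
  rw [hF0] at h1
  linarith

theorem small_prod {ι : Type} (P : Finset ι) (F : ι → (κ → X) → ℝ) (z : ι → ℝ) (φ : (κ → X) → ℝ)
    (η τ : ℝ) (hF : ∀ p i, 0 ≤ hat (F p) i) (hF0 : ∀ p, F p 0 = τ)
    (hz : ∀ p ∈ P, |z p| ≤ τ) (hφ : ∀ i, |hat φ i| ≤ η) (i : κ → X) :
    |hat (fun j => (∏ p ∈ P, (F p j - z p)) * φ j) i| ≤ (2 * τ) ^ P.card * η := by
  classical
  induction P using Finset.induction_on generalizing i with
  | empty => simpa using hφ i
  | insert a s ha ih =>
    have h1 := small_sub (F a) (fun j => (∏ p ∈ s, (F p j - z p)) * φ j) _ τ (z a) (hF a) (hF0 a)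
      (hz a (by simp)) (ih (fun p hp => hz p (by simp [hp]))) i
    simp only [Finset.prod_insert ha, Finset.card_insert_of_notMem ha, mul_assoc] at h1 ⊢
    rw [pow_succ']
    simpa only [mul_assoc] using h1

/-- a positive definite function with nearly full energy is close to a character -/
theorem near_char (F : (κ → X) → ℝ) (τ θ : ℝ) (hτ : 0 < τ) (hF : ∀ i, 0 ≤ hat F i) (hF0 : F 0 = τ)
    (hE : (1 - θ) * (Fintype.card (κ → X) : ℝ) * τ ^ 2 ≤ ∑ j, F j * F j) :
    ∃ i, ∀ j, τ - 2 * θ * τ ≤ (chi i j : ℝ) * F j := by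
  have hM := card_pos' (κ := κ)
  set M : ℝ := (Fintype.card (κ → X) : ℝ) with hMdef
  obtain ⟨i0, -, hi0⟩ := Finset.exists_max_image Finset.univ (hat F) Finset.univ_nonempty
  have hs : ∑ i, hat F i = M * τ := by rw [sum_hat, hF0]
  have h1 : M * ∑ j, F j * F j ≤ hat F i0 * (M * τ) := by
    rw [← hat_zero (fun j => F j * F j), hat_mul, ← hs, Finset.mul_sum]
    refine Finset.sum_le_sum (fun i _ => ?_)
    rw [add_zero]
    exact mul_le_mul_of_nonneg_right (hi0 i (Finset.mem_univ _)) (hF i)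
  have h2 : (1 - θ) * M * τ ≤ hat F i0 := by
    have h3 : ((1 - θ) * M * τ) * (M * τ) ≤ hat F i0 * (M * τ) := by
      calc ((1 - θ) * M * τ) * (M * τ) = M * ((1 - θ) * M * τ ^ 2) := by ring
        _ ≤ M * ∑ j, F j * F j := mul_le_mul_of_nonneg_left hE hM.le
        _ ≤ _ := h1
    exact le_of_mul_le_mul_right h3 (mul_pos hM hτ)
  refine ⟨i0, fun j => ?_⟩
  have h4 : M * ((chi i0 j : ℝ) * F j) = ∑ i, hat F i * ((chi i j : ℝ) * (chi i0 j : ℝ)) := by
    calc M * ((chi i0 j : ℝ) * F j) = (M * F j) * (chi i0 j : ℝ) := by ring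
      _ = _ := by
        rw [← hat_inv, Finset.sum_mul]
        exact Finset.sum_congr rfl (fun i _ => by ring)
  have h5 : ∑ i, ((if i = i0 then 2 * hat F i else 0) - hat F i)
      ≤ ∑ i, hat F i * ((chi i j : ℝ) * (chi i0 j : ℝ)) := by
    refine Finset.sum_le_sum (fun i _ => ?_)
    have hi := hF i
    split_ifs with h
    · subst h
      rcases chi_pm i j with h | h <;> simp [h] <;> linarith
    · rcases chi_pm i j with h | h <;> rcases chi_pm i0 j with h' | h' <;> simp [h, h'] <;> linarith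
  rw [Finset.sum_sub_distrib, Finset.sum_ite_eq', hs] at h5
  simp only [Finset.mem_univ, if_true] at h5
  have h6 : M * (τ - 2 * θ * τ) ≤ M * ((chi i0 j : ℝ) * F j) := by
    rw [h4]
    nlinarith
  exact le_of_mul_le_mul_left h6 hM

end Pool.Agent.MP_6132b6_co

end

-- part MP_6132b6_co.Core
section

namespace Pool.Agent.MP_6132b6_co

open Finset

variable {S : Type} [Fintype S] [DecidableEq S] {n : ℕ}

def qq (s : S) (j : S × Fin n → X) : ℤ := ∏ t : Fin n, q (j (s, t))

omit [Fintype S] [DecidableEq S] in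
theorem qq_pm (s : S) (j : S × Fin n → X) : qq s j = 1 ∨ qq s j = -1 :=
  prod_pm _ _ (fun _ _ => q_pm _)

omit [Fintype S] [DecidableEq S] in
theorem qq_zero (s : S) : qq s (0 : S × Fin n → X) = 1 := by
  simp [qq, q_zero]

theorem hat_Q (T : Finset S) (hT : T.Nonempty) (i : S × Fin n → X) :
    |hat (fun j => ((∏ s ∈ T, qq s j : ℤ) : ℝ)) i|
      ≤ (Fintype.card (S × Fin n → X) : ℝ) / 2 ^ n := by
  obtain ⟨s0, hs0⟩ := hT
  have h1 : ∀ j : S × Fin n → X, chi i j * ∏ s ∈ T, qq s j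
      = ∏ p : S × Fin n, (e (i p) (j p) * if p.1 ∈ T then q (j p) else 1) := by
    intro j
    rw [Finset.prod_mul_distrib, chi]
    congr 1
    rw [Fintype.prod_prod_type]
    simp only [qq]
    rw [← Finset.prod_subset (Finset.subset_univ T)]
    · exact Finset.prod_congr rfl (fun s hs => by simp [hs])
    · intro s _ hs
      simp [hs]
  have h2 : hat (fun j => ((∏ s ∈ T, qq s j : ℤ) : ℝ)) i
      = ((∏ p : S × Fin n, ∑ b, (e (i p) b * if p.1 ∈ T then q b else 1) : ℤ) : ℝ) := by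
    rw [← sum_prod_pi (fun p b => e (i p) b * if p.1 ∈ T then q b else 1), hat]
    rw [Int.cast_sum]
    refine Finset.sum_congr rfl (fun j _ => ?_)
    rw [← h1, Int.cast_mul]
  rw [h2, Int.cast_prod, Finset.abs_prod]
  have h3 : ∀ p : S × Fin n, |((∑ b, (e (i p) b * if p.1 ∈ T then q b else 1) : ℤ) : ℝ)|
      ≤ 4 * if p.1 = s0 then 1 / 2 else 1 := by
    intro p
    rw [← Int.cast_abs]
    by_cases hp : p.1 ∈ T
    · simp only [hp, if_true, sum_eq]
      split_ifs <;> norm_num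
    · have hne : p.1 ≠ s0 := fun h => hp (h ▸ hs0)
      simp only [hp, if_false, mul_one, sum_e, hne]
      split_ifs <;> norm_num
  refine le_trans (Finset.prod_le_prod (fun p _ => abs_nonneg _) (fun p _ => h3 p)) ?_
  rw [Finset.prod_mul_distrib, Fintype.prod_prod_type (fun p : S × Fin n =>
    if p.1 = s0 then (1 / 2 : ℝ) else 1)]
  have h4 : ∀ s : S, ∏ _t : Fin n, (if s = s0 then (1 / 2 : ℝ) else 1)
      = if s = s0 then (1 / 2 : ℝ) ^ n else 1 := by
    intro s
    split_ifs <;> simp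
  simp only [h4, Finset.prod_ite_eq', Finset.mem_univ, if_true, Finset.prod_const,
    Finset.card_univ]
  have h5 : (Fintype.card (S × Fin n → X) : ℝ) = 4 ^ Fintype.card (S × Fin n) := by
    exact_mod_cast card_G (κ := S × Fin n)
  rw [h5, one_div, inv_pow, div_eq_mul_inv]

theorem level {R : Type} [Fintype R] [DecidableEq R] (u : (S × Fin n → X) → R → ℤ) (τ : ℕ)
    (hτ : 1 ≤ τ) (hpos : ∀ a i, 0 ≤ hat (fun j => (u j a : ℝ)) i) (h0 : ∀ a, u 0 a = τ)
    (hb : ∀ j a, |u j a| ≤ τ) (w : R → ℤ) (s : S)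
    (hw : ∀ j, qq s j = -1 → (∀ l, l ≠ s → qq l j = 1) → u j ≠ w) :
    ((univ.filter (fun j => u j = w)).card : ℝ)
      ≤ 2 ^ Fintype.card S * (2 * (τ : ℝ)) ^ (Fintype.card R * (2 * τ + 1))
        * ((Fintype.card (S × Fin n → X) : ℝ) / 2 ^ n) := by
  set η : ℝ := (Fintype.card (S × Fin n → X) : ℝ) / 2 ^ n with hη
  have hη0 : 0 ≤ η := by positivity
  set P : Finset (R × ℤ) := ((univ : Finset R) ×ˢ Finset.Icc (-(τ : ℤ)) τ).filter
    (fun p => p.2 ≠ w p.1) with hP
  set Λ : ℝ := (2 * (τ : ℝ)) ^ (Fintype.card R * (2 * τ + 1)) with hΛ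
  have hτ' : (1 : ℝ) ≤ τ := by exact_mod_cast hτ
  have hPc : (2 * (τ : ℝ)) ^ P.card ≤ Λ := by
    refine pow_le_pow_right₀ (by linarith) ?_
    refine le_trans (Finset.card_filter_le _ _) ?_
    rw [Finset.card_product, Int.card_Icc, Finset.card_univ]
    apply Nat.mul_le_mul_left
    omega
  set Pw : (S × Fin n → X) → ℝ := fun j => ∏ p ∈ P, ((u j p.1 : ℝ) - (p.2 : ℝ)) with hPw
  have hPw0 : ∀ j, u j ≠ w → Pw j = 0 := by
    intro j hj
    obtain ⟨a, ha⟩ := Function.ne_iff.mp hj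
    refine Finset.prod_eq_zero (i := (a, u j a)) ?_ (by simp)
    have := abs_le.mp (hb j a)
    simp only [hP, Finset.mem_filter, Finset.mem_product, Finset.mem_univ, Finset.mem_Icc,
      true_and]
    exact ⟨this, ha⟩
  set D : ℝ := ∏ p ∈ P, ((w p.1 : ℝ) - (p.2 : ℝ)) with hD
  have hD1 : 1 ≤ |D| := by
    rw [hD, Finset.abs_prod]
    refine Finset.one_le_prod (fun p hp => ?_)
    have hne : w p.1 - p.2 ≠ 0 := sub_ne_zero.mpr (Finset.mem_filter.mp hp).2.symm
    have := Int.one_le_abs hne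
    exact_mod_cast this
  have hsum : ∑ j, Pw j = D * ((univ.filter (fun j => u j = w)).card : ℝ) := by
    rw [← Finset.sum_filter_add_sum_filter_not univ (fun j => u j = w)]
    rw [Finset.sum_eq_zero (s := univ.filter (fun j => ¬ u j = w))
      (fun j hj => hPw0 j (Finset.mem_filter.mp hj).2), add_zero]
    rw [Finset.sum_congr rfl (g := fun _ => D)]
    · simp [mul_comm]
    · intro j hj
      simp only [hPw, hD, (Finset.mem_filter.mp hj).2]
  set ε : S → ℤ := fun l => if l = s then -1 else 1 with hε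
  have hz : ∀ j, Pw j * ((∏ l, (1 + ε l * qq l j) : ℤ) : ℝ) = 0 := by
    intro j
    by_cases hj : u j = w
    · by_contra hc
      have hc2 : ∏ l, (1 + ε l * qq l j) ≠ 0 := by
        intro h
        apply hc
        rw [h]
        simp
      have hc3 : ∀ l, 1 + ε l * qq l j ≠ 0 := fun l =>
        Finset.prod_ne_zero_iff.mp hc2 l (Finset.mem_univ _)
      refine hw j ?_ ?_ hj
      · have := hc3 s
        rcases qq_pm s j with h | h
        · simp [hε, h] at this
        · exact h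
      · intro l hl
        have := hc3 l
        rcases qq_pm l j with h | h
        · exact h
        · simp [hε, h, hl] at this
    · rw [hPw0 j hj, zero_mul]
  have hexp : ∑ T ∈ (univ : Finset S).powerset, ((∏ l ∈ T, ε l : ℤ) : ℝ) *
      hat (fun j => Pw j * ((∏ l ∈ T, qq l j : ℤ) : ℝ)) 0 = 0 := by
    calc _ = ∑ j, Pw j * ((∏ l, (1 + ε l * qq l j) : ℤ) : ℝ) := by
          simp only [hat_zero, Finset.mul_sum]
          rw [Finset.sum_comm]
          refine Finset.sum_congr rfl (fun j _ => ?_)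
          rw [Finset.prod_one_add, Int.cast_sum, Finset.mul_sum]
          refine Finset.sum_congr rfl (fun T _ => ?_)
          rw [Finset.prod_mul_distrib, Int.cast_mul]
          ring
      _ = 0 := Finset.sum_eq_zero (fun j _ => hz j)
  rw [← Finset.add_sum_erase _ _ (Finset.empty_mem_powerset _)] at hexp
  simp only [Finset.prod_empty, Int.cast_one, mul_one, one_mul] at hexp
  rw [hat_zero] at hexp
  have hterm : ∀ T ∈ ((univ : Finset S).powerset).erase ∅, |((∏ l ∈ T, ε l : ℤ) : ℝ) *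
      hat (fun j => Pw j * ((∏ l ∈ T, qq l j : ℤ) : ℝ)) 0| ≤ Λ * η := by
    intro T hT
    have hne : T.Nonempty := Finset.nonempty_iff_ne_empty.mpr (Finset.mem_erase.mp hT).1
    have h1 : |((∏ l ∈ T, ε l : ℤ) : ℝ)| = 1 := by
      rcases prod_pm T ε (fun l _ => by simp only [hε]; split_ifs <;> simp) with h | h <;>
        simp [h]
    rw [abs_mul, h1, one_mul]
    have h2 := small_prod P (fun p j => (u j p.1 : ℝ)) (fun p => (p.2 : ℝ))
      (fun j => ((∏ l ∈ T, qq l j : ℤ) : ℝ)) η τ (fun p i => hpos p.1 i)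
      (fun p => by simp [h0]) (fun p hp => by
        have := (Finset.mem_product.mp (Finset.mem_filter.mp hp).1).2
        have h3 := abs_le.mpr (Finset.mem_Icc.mp this)
        exact_mod_cast h3) (fun i => hat_Q T hne i) 0
    exact le_trans h2 (mul_le_mul_of_nonneg_right hPc hη0)
  have hfin : |∑ j, Pw j| ≤ 2 ^ Fintype.card S * (Λ * η) := by
    rw [eq_neg_of_add_eq_zero_left hexp, abs_neg]
    refine le_trans (Finset.abs_sum_le_sum_abs _ _) (le_trans (Finset.sum_le_sum hterm) ?_)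
    rw [Finset.sum_const, nsmul_eq_mul]
    refine mul_le_mul_of_nonneg_right ?_ (by positivity)
    have : (((univ : Finset S).powerset).erase ∅).card ≤ 2 ^ Fintype.card S := by
      refine le_trans (Finset.card_erase_le) ?_
      simp
    exact_mod_cast this
  rw [hsum, abs_mul, Nat.abs_cast] at hfin
  have hc0 : (0 : ℝ) ≤ ((univ.filter (fun j => u j = w)).card : ℝ) := by positivity
  nlinarith

def Good {R : Type} (τ : ℤ) (w : R → ℤ) : Prop :=
  ∃ a, (w a = τ ∨ w a = -τ) ∧ ∀ a', a' ≠ a → w a' = 0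

/-- Rigidity: if few points are bad, one coordinate is a character. -/
theorem rigid {κ : Type} [Fintype κ] [DecidableEq κ] {R : Type} [Fintype R] [DecidableEq R]
    [Nonempty R] (u : (κ → X) → R → ℤ) (τ : ℕ)
    (hτ : 1 ≤ τ) (hpos : ∀ a i, 0 ≤ hat (fun j => (u j a : ℝ)) i) (h0 : ∀ a, u 0 a = τ)
    (hb : ∀ j a, |u j a| ≤ τ) (Bad : Finset (κ → X)) (hBad : ∀ j, j ∉ Bad → Good τ (u j))
    (θ : ℝ) (hθ : 0 < θ) (hθ1 : θ ≤ 1)
    (hθ2 : 2 * ((Fintype.card R + 1) * θ) * τ < 1)
    (hc : (Bad.card : ℝ) ≤ θ ^ 2 * Fintype.card (κ → X)) :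
    ∃ a i, ∀ j, chi i j * u j a = τ := by
  have hM := card_pos' (κ := κ)
  set M : ℝ := (Fintype.card (κ → X) : ℝ) with hMdef
  have hτ' : (1 : ℝ) ≤ τ := by exact_mod_cast hτ
  set E : R → ℝ := fun a => ∑ j, (u j a : ℝ) * (u j a : ℝ) with hE
  have hE0 : ∀ a, 0 ≤ E a := fun a => Finset.sum_nonneg (fun j _ => mul_self_nonneg _)
  have hsq : ∀ j a, (u j a : ℝ) * (u j a : ℝ) ≤ (τ : ℝ) ^ 2 := by
    intro j a
    have h1 : |(u j a : ℝ)| ≤ τ := by exact_mod_cast hb j a
    have h2 := abs_le.mp h1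
    nlinarith
  have hcross : ∀ a a', a ≠ a' → E a * E a' ≤ (θ * M * τ ^ 2) ^ 2 := by
    intro a a' hne
    have h1 := corr (fun j => (u j a : ℝ) * (u j a : ℝ)) (fun j => (u j a' : ℝ) * (u j a' : ℝ))
      (pos_mul _ _ (hpos a) (hpos a)) (pos_mul _ _ (hpos a') (hpos a'))
    have h2 : ∑ j, ((u j a : ℝ) * (u j a : ℝ)) * ((u j a' : ℝ) * (u j a' : ℝ))
        ≤ Bad.card * ((τ : ℝ) ^ 2 * (τ : ℝ) ^ 2) := by
      rw [← Finset.sum_subset (Finset.subset_univ Bad)]
      · rw [← nsmul_eq_mul]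
        refine Finset.sum_le_card_nsmul _ _ _ (fun j _ => ?_)
        exact mul_le_mul (hsq j a) (hsq j a') (mul_self_nonneg _) (by positivity)
      · intro j _ hj
        obtain ⟨b, -, hb2⟩ := hBad j hj
        by_cases h : a = b
        · have := hb2 a' (fun h' => hne (h.trans h'.symm))
          simp [this]
        · simp [hb2 a h]
    calc E a * E a' ≤ M * (Bad.card * ((τ : ℝ) ^ 2 * (τ : ℝ) ^ 2)) :=
          le_trans h1 (mul_le_mul_of_nonneg_left h2 hM.le)
      _ ≤ M * ((θ ^ 2 * M) * ((τ : ℝ) ^ 2 * (τ : ℝ) ^ 2)) := by gcongr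
      _ = _ := by ring
  have htot : (M - Bad.card) * (τ : ℝ) ^ 2 ≤ ∑ a, E a := by
    simp only [hE]
    rw [Finset.sum_comm]
    have h1 : ∑ j ∈ Badᶜ, (τ : ℝ) ^ 2 ≤ ∑ j ∈ Badᶜ, ∑ a, (u j a : ℝ) * (u j a : ℝ) := by
      refine Finset.sum_le_sum (fun j hj => ?_)
      obtain ⟨b, hb1, -⟩ := hBad j (Finset.mem_compl.mp hj)
      refine le_trans ?_ (Finset.single_le_sum (f := fun a => (u j a : ℝ) * (u j a : ℝ))
        (fun a _ => mul_self_nonneg _) (Finset.mem_univ b))
      rcases hb1 with h | h <;> simp [h, sq]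
    have h2 : ∑ j ∈ Badᶜ, ∑ a, (u j a : ℝ) * (u j a : ℝ) ≤ ∑ j, ∑ a, (u j a : ℝ) * (u j a : ℝ) :=
      Finset.sum_le_sum_of_subset_of_nonneg (Finset.subset_univ _)
        (fun j _ _ => Finset.sum_nonneg (fun a _ => mul_self_nonneg _))
    rw [Finset.sum_const, Finset.card_compl, nsmul_eq_mul,
      Nat.cast_sub (Finset.card_le_univ _)] at h1
    exact le_trans h1 h2
  obtain ⟨a0, -, ha0⟩ := Finset.exists_max_image Finset.univ E Finset.univ_nonempty
  have hsmall : ∀ a, a ≠ a0 → E a ≤ θ * M * τ ^ 2 := by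
    intro a ha
    have h1 : E a ^ 2 ≤ (θ * M * τ ^ 2) ^ 2 := by
      refine le_trans ?_ (hcross a a0 ha)
      rw [sq]
      exact mul_le_mul_of_nonneg_left (ha0 a (Finset.mem_univ _)) (hE0 a)
    exact (pow_le_pow_iff_left₀ (hE0 a) (by positivity) two_ne_zero).mp h1
  have hbig : (1 - (Fintype.card R + 1) * θ) * M * (τ : ℝ) ^ 2 ≤ E a0 := by
    rw [← Finset.add_sum_erase _ _ (Finset.mem_univ a0)] at htot
    have h1 : ∑ a ∈ univ.erase a0, E a ≤ Fintype.card R * (θ * M * τ ^ 2) := by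
      refine le_trans (Finset.sum_le_card_nsmul _ _ (θ * M * τ ^ 2)
        (fun a ha => hsmall a (Finset.mem_erase.mp ha).1)) ?_
      rw [nsmul_eq_mul]
      refine mul_le_mul_of_nonneg_right ?_ (by positivity)
      have : (univ.erase a0).card ≤ Fintype.card R := Finset.card_le_univ _
      exact_mod_cast this
    have h2 : (Bad.card : ℝ) * (τ : ℝ) ^ 2 ≤ (θ * M) * (τ : ℝ) ^ 2 := by
      refine mul_le_mul_of_nonneg_right (le_trans hc ?_) (by positivity)
      refine mul_le_mul_of_nonneg_right ?_ hM.le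
      nlinarith
    nlinarith
  obtain ⟨i, hi⟩ := near_char (fun j => (u j a0 : ℝ)) τ ((Fintype.card R + 1) * θ)
    (by linarith) (hpos a0) (by simp [h0]) hbig
  refine ⟨a0, i, fun j => ?_⟩
  have h1 : (τ : ℝ) - 1 < ((chi i j * u j a0 : ℤ) : ℝ) := by
    push_cast
    linarith [hi j]
  have h2 : (τ : ℤ) - 1 < chi i j * u j a0 := by exact_mod_cast h1
  have h3 := abs_le.mp (hb j a0)
  rcases chi_pm i j with h | h <;> rw [h] at h2 ⊢ <;> omega

end Pool.Agent.MP_6132b6_co

end

-- part MP_6132b6_co.Outer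
section

namespace Pool.Agent.MP_6132b6_co

open Finset

def InU {R C : Type} [Fintype C] (B : R → C → ℤ) (w : R → ℤ) : Prop :=
  ∃ y : C → ℤ, (∀ b, y b = 1 ∨ y b = -1) ∧ ∀ a, w a = ∑ b, B a b * y b

def PH {R C : Type} [Fintype C] (B : R → C → ℤ) : Prop :=
  (∀ a b, B a b = 1 ∨ B a b = -1) ∧ ∀ a a', a ≠ a' → ∑ b, B a b * B a' b = 0

theorem sum_pm_le {C : Type} [Fintype C] (g : C → ℤ) (hg : ∀ b, g b = 1 ∨ g b = -1) :
    |∑ b, g b| ≤ Fintype.card C := by
  refine le_trans (Finset.abs_sum_le_sum_abs _ _) ?_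
  have : ∀ b, |g b| = 1 := fun b => by rcases hg b with h | h <;> simp [h]
  simp [this]

theorem sum_pm_eq {C : Type} [Fintype C] (g : C → ℤ) (hg : ∀ b, g b = 1 ∨ g b = -1)
    (h : ∑ b, g b = Fintype.card C) (b : C) : g b = 1 := by
  have h1 : ∑ b, (1 - g b) = 0 := by
    rw [Finset.sum_sub_distrib, h]
    simp
  have h2 := (Finset.sum_eq_zero_iff_of_nonneg (fun b _ => by
    rcases hg b with h | h <;> simp [h])).mp h1 b (Finset.mem_univ _)
  linarith

theorem pm_mul {a b : ℤ} (ha : a = 1 ∨ a = -1) (hb : b = 1 ∨ b = -1) :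
    a * b = 1 ∨ a * b = -1 := by
  rcases ha with h | h <;> rcases hb with h' | h' <;> simp [h, h']

open Classical in
noncomputable def sel {S : Type} {n : ℕ} (s0 : S) (j : S × Fin n → X) : S :=
  if h : ∃ s, qq s j = -1 then h.choose else s0

theorem sel_eq {S : Type} {n : ℕ} (s0 s : S) (j : S × Fin n → X) (h1 : qq s j = -1)
    (h2 : ∀ l, l ≠ s → qq l j = 1) : sel s0 j = s := by
  have h : ∃ s, qq s j = -1 := ⟨s, h1⟩
  rw [sel, dif_pos h]
  by_contra hc
  have h3 := h.choose_spec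
  rw [h2 _ hc] at h3
  omega

theorem core {S R C : Type} [Fintype S] [DecidableEq S] [Fintype R] [DecidableEq R] [Nonempty R]
    [Fintype C] [Nonempty C] (fam : S → R → C → ℤ) (hpm : ∀ s a b, fam s a b = 1 ∨ fam s a b = -1)
    (hint : ∀ w, (∀ s, InU (fam s) w) → Good (Fintype.card C) w) (s0 : S) :
    ∃ n, 1 ≤ n ∧ ∀ y : (S × Fin n → X) → C → ℤ, (∀ j b, y j b = 1 ∨ y j b = -1) →
      (∀ i a, -(Fintype.card C : ℤ)
        ≤ ∑ j ∈ univ.erase 0, ∑ b, chi i j * fam (sel s0 j) a b * y j b) →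
      ∃ i a, ∀ j, j ≠ 0 → ∀ b, y j b = chi i j * fam (sel s0 j) a b := by
  classical
  set τ : ℕ := Fintype.card C with hτdef
  have hτ : 1 ≤ τ := Fintype.card_pos
  have hτ' : (1 : ℝ) ≤ τ := by exact_mod_cast hτ
  set k : ℕ := Fintype.card R with hk
  set θ : ℝ := 1 / (4 * (k + 1) * τ) with hθ
  have hk0 : (0 : ℝ) ≤ k := by positivity
  have hθ0 : 0 < θ := by positivity
  have hθ1 : θ ≤ 1 := by
    rw [hθ, div_le_one (by positivity)]
    nlinarith
  have hθ2 : 2 * ((k + 1) * θ) * τ < 1 := by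
    have : 2 * ((k + 1) * θ) * τ = 1 / 2 := by
      rw [hθ]
      field_simp
      ring
    rw [this]
    norm_num
  set K : ℝ := (2 * τ + 1) ^ k * (2 ^ Fintype.card S * (2 * (τ : ℝ)) ^ (k * (2 * τ + 1))) with hK
  obtain ⟨n, hn⟩ := pow_unbounded_of_one_lt (max 1 (K / θ ^ 2)) (one_lt_two : (1 : ℝ) < 2)
  have hn1 : 1 ≤ n := by
    by_contra h
    have : n = 0 := by omega
    subst this
    have := lt_of_le_of_lt (le_max_left _ _) hn
    simp at this
  have hn2 : K / 2 ^ n ≤ θ ^ 2 := by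
    have h1 := lt_of_le_of_lt (le_max_right _ _) hn
    rw [div_lt_iff₀ (by positivity)] at h1
    rw [div_le_iff₀ (by positivity)]
    linarith
  refine ⟨n, hn1, fun y hy hA => ?_⟩
  set u : (S × Fin n → X) → R → ℤ :=
    fun j a => if j = 0 then (τ : ℤ) else ∑ b, fam (sel s0 j) a b * y j b with hu
  have h0 : ∀ a, u 0 a = τ := fun a => by simp [hu]
  have hne : ∀ j, j ≠ 0 → ∀ a, u j a = ∑ b, fam (sel s0 j) a b * y j b :=
    fun j hj a => by simp [hu, hj]
  have hb : ∀ j a, |u j a| ≤ τ := by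
    intro j a
    by_cases hj : j = 0
    · rw [hj, h0]
      simp
    · rw [hne j hj]
      exact sum_pm_le _ (fun b => pm_mul (hpm _ _ _) (hy _ _))
  have hpos : ∀ a i, 0 ≤ hat (fun j => (u j a : ℝ)) i := by
    intro a i
    have h1 : (0 : ℤ) ≤ ∑ j, chi i j * u j a := by
      rw [← Finset.add_sum_erase _ _ (Finset.mem_univ (0 : S × Fin n → X)), chi_zero', h0]
      have h2 : ∑ j ∈ univ.erase 0, chi i j * u j a
          = ∑ j ∈ univ.erase 0, ∑ b, chi i j * fam (sel s0 j) a b * y j b := by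
        refine Finset.sum_congr rfl (fun j hj => ?_)
        rw [hne j (Finset.mem_erase.mp hj).1, Finset.mul_sum]
        exact Finset.sum_congr rfl (fun b _ => by ring)
      rw [h2]
      linarith [hA i a]
    have h3 : hat (fun j => (u j a : ℝ)) i = ((∑ j, chi i j * u j a : ℤ) : ℝ) := by
      simp [hat]
    rw [h3]
    exact_mod_cast h1
  set Bad : Finset (S × Fin n → X) := univ.filter (fun j => ¬ Good τ (u j)) with hBad
  set W : Finset (R → ℤ) := (Fintype.piFinset (fun _ : R => Finset.Icc (-(τ : ℤ)) τ)).filter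
    (fun w => ¬ Good τ w) with hW
  have hsub : Bad ⊆ W.biUnion (fun w => univ.filter (fun j => u j = w)) := by
    intro j hj
    rw [Finset.mem_biUnion]
    refine ⟨u j, ?_, by simp⟩
    rw [hW, Finset.mem_filter, Fintype.mem_piFinset]
    exact ⟨fun a => Finset.mem_Icc.mpr (abs_le.mp (hb j a)), (Finset.mem_filter.mp hj).2⟩
  have hlev : ∀ w ∈ W, ((univ.filter (fun j => u j = w)).card : ℝ)
      ≤ 2 ^ Fintype.card S * (2 * (τ : ℝ)) ^ (k * (2 * τ + 1))
        * ((Fintype.card (S × Fin n → X) : ℝ) / 2 ^ n) := by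
    intro w hw
    have h1 : ¬ ∀ s, InU (fam s) w := fun h => (Finset.mem_filter.mp hw).2 (hint w h)
    push Not at h1
    obtain ⟨s, hs⟩ := h1
    refine level u τ hτ hpos h0 hb w s (fun j h1 h2 h3 => hs ?_)
    have hj : j ≠ 0 := by
      rintro rfl
      rw [qq_zero] at h1
      omega
    refine ⟨y j, hy j, fun a => ?_⟩
    rw [← h3, hne j hj, sel_eq s0 s j h1 h2]
  have hWc : (W.card : ℝ) ≤ (2 * τ + 1) ^ k := by
    have h1 : W.card ≤ (2 * τ + 1) ^ k := by
      refine le_trans (Finset.card_filter_le _ _) ?_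
      rw [Fintype.card_piFinset]
      simp only [Int.card_Icc, Finset.prod_const, Finset.card_univ]
      apply Nat.pow_le_pow_left
      omega
    exact_mod_cast h1
  have hc : (Bad.card : ℝ) ≤ θ ^ 2 * Fintype.card (S × Fin n → X) := by
    have h1 : (Bad.card : ℝ) ≤ ∑ w ∈ W, ((univ.filter (fun j => u j = w)).card : ℝ) := by
      exact_mod_cast le_trans (Finset.card_le_card hsub) Finset.card_biUnion_le
    have h2 := Finset.sum_le_card_nsmul _ _ _ hlev
    rw [nsmul_eq_mul] at h2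
    have hM := card_pos' (κ := S × Fin n)
    calc (Bad.card : ℝ) ≤ _ := le_trans h1 h2
      _ ≤ (2 * τ + 1) ^ k * (2 ^ Fintype.card S * (2 * (τ : ℝ)) ^ (k * (2 * τ + 1))
        * ((Fintype.card (S × Fin n → X) : ℝ) / 2 ^ n)) :=
          mul_le_mul_of_nonneg_right hWc (by positivity)
      _ = K / 2 ^ n * Fintype.card (S × Fin n → X) := by
          rw [hK]
          ring
      _ ≤ _ := mul_le_mul_of_nonneg_right hn2 hM.le
  obtain ⟨a, i, hi⟩ := rigid u τ hτ hpos h0 hb Bad (fun j hj => by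
    by_contra h
    exact hj (by simp [hBad, h])) θ hθ0 hθ1 hθ2 hc
  refine ⟨i, a, fun j hj b => ?_⟩
  have h1 := hi j
  rw [hne j hj, Finset.mul_sum] at h1
  have h2 := sum_pm_eq _ (fun b => pm_mul (chi_pm i j) (pm_mul (hpm _ a b) (hy j b))) h1 b
  rcases chi_pm i j with h | h <;> rcases hpm (sel s0 j) a b with h' | h' <;>
    rw [h, h'] at h2 ⊢ <;> linarith

theorem facet_of_design {Row Col : Type} [Fintype Row] [Nonempty Row] [Fintype Col]
    (A : Row → Col → ℤ) (hA : ∀ x c, A x c = 1 ∨ A x c = -1) (τ r : ℕ)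
    (hr : Fintype.card Col + τ = 2 * r)
    (h1 : ∀ x x', -(τ : ℤ) ≤ ∑ c, A x c * A x' c)
    (h2 : ∀ x, ∃ x', ∑ c, A x' c * A x c = -(τ : ℤ))
    (h3 : ∀ y : Col → ℤ, (∀ c, y c = 1 ∨ y c = -1) → (∀ x, -(τ : ℤ) ≤ ∑ c, A x c * y c) →
      ∃ x, y = A x)
    (n : ℕ) (hn : Fintype.card Col ≤ n) :
    ∃ S : Finset (Fin n → Bool), IsFacet r S ∧ S.card ≤ Fintype.card Row := by
  classical
  obtain ⟨ι⟩ : Nonempty (Col ↪ Fin n) := Function.Embedding.nonempty_of_card_le (by simpa)
  set p : Row → Fin n → Bool := fun x t => decide (∃ c, ι c = t ∧ A x c = -1) with hp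
  set sg : (Fin n → Bool) → Col → ℤ := fun Y c => if Y (ι c) = true then -1 else 1 with hsg
  set out : (Fin n → Bool) → (Fin n → Bool) → ℕ :=
    fun Y Z => ((univ.map ι)ᶜ.filter (fun t => Y t ≠ Z t)).card with hout
  have hsgp : ∀ x, sg (p x) = A x := by
    intro x
    funext c
    simp only [hsg, hp, decide_eq_true_eq]
    rcases hA x c with h | h
    · rw [if_neg, h]
      rintro ⟨c', hc', h'⟩
      rw [ι.injective hc', h] at h'
      omega
    · rw [if_pos ⟨c, rfl, h⟩, h]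
  have hdist : ∀ Y Z : Fin n → Bool, 2 * (hammingDist Y Z : ℤ)
      = Fintype.card Col - ∑ c, sg Y c * sg Z c + 2 * out Y Z := by
    intro Y Z
    have e1 : hammingDist Y Z = ((univ.map ι).filter (fun t => Y t ≠ Z t)).card + out Y Z := by
      rw [hammingDist, hout, ← Finset.card_union_of_disjoint, ← Finset.filter_union,
        Finset.union_compl]
      exact Finset.disjoint_filter_filter disjoint_compl_right
    have e2 : 2 * (((univ.map ι).filter (fun t => Y t ≠ Z t)).card : ℤ)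
        = ∑ c, (1 - sg Y c * sg Z c) := by
      rw [Finset.card_filter, Finset.sum_map, Nat.cast_sum, Finset.mul_sum]
      refine Finset.sum_congr rfl (fun c _ => ?_)
      simp only [hsg]
      cases Y (ι c) <;> cases Z (ι c) <;> simp
    rw [Finset.sum_sub_distrib] at e2
    simp only [Finset.sum_const, Finset.card_univ, nsmul_eq_mul, mul_one] at e2
    rw [e1]
    push_cast
    linarith
  have hpout : ∀ x t, t ∉ univ.map ι → p x t = false := by
    intro x t ht
    simp only [hp, decide_eq_false_iff_not]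
    rintro ⟨c, hc, -⟩
    exact ht (Finset.mem_map.mpr ⟨c, Finset.mem_univ _, hc⟩)
  have hr' : (Fintype.card Col : ℤ) + τ = 2 * r := by exact_mod_cast hr
  have hfacet : IsFacet r (univ.image p) := by
    refine ⟨⟨Finset.univ_nonempty.image _, ?_⟩, ?_⟩
    · intro Y hY Z hZ
      obtain ⟨x, -, rfl⟩ := Finset.mem_image.mp hY
      obtain ⟨x', -, rfl⟩ := Finset.mem_image.mp hZ
      have e1 := hdist (p x) (p x')
      have e2 : out (p x) (p x') = 0 := by
        rw [hout, Finset.card_eq_zero, Finset.filter_eq_empty_iff]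
        intro t ht
        rw [hpout x t (Finset.mem_compl.mp ht), hpout x' t (Finset.mem_compl.mp ht)]
        simp
      rw [e2, hsgp, hsgp] at e1
      have := h1 x x'
      omega
    · intro T hT hsub
      refine Finset.Subset.antisymm (fun Y hY => ?_) hsub
      have hd : ∀ x, hammingDist (p x) Y ≤ r := fun x =>
        hT.2 _ (hsub (Finset.mem_image_of_mem _ (Finset.mem_univ x))) _ hY
      obtain ⟨x, hx⟩ := h3 (sg Y) (fun c => by simp only [hsg]; split_ifs <;> simp) (fun x => by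
        have e1 := hdist (p x) Y
        rw [hsgp] at e1
        have := hd x
        omega)
      obtain ⟨x', hx'⟩ := h2 x
      have e1 := hdist (p x') Y
      rw [hsgp, hx, hx'] at e1
      have e2 : out (p x') Y = 0 := by
        have := hd x'
        omega
      rw [hout, Finset.card_eq_zero, Finset.filter_eq_empty_iff] at e2
      refine Finset.mem_image.mpr ⟨x, Finset.mem_univ _, ?_⟩
      funext t
      by_cases ht : t ∈ univ.map ι
      · obtain ⟨c, -, rfl⟩ := Finset.mem_map.mp ht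
        have e3 : sg (p x) c = sg Y c := by rw [hsgp, hx]
        simp only [hsg] at e3
        revert e3
        cases p x (ι c) <;> cases Y (ι c) <;> simp
      · have e3 := e2 (Finset.mem_compl.mpr ht)
        rw [hpout x' t ht] at e3
        rw [hpout x t ht]
        simpa using e3
  exact ⟨_, hfacet, le_trans Finset.card_image_le (by simp)⟩

/-- The outer construction. -/
theorem outer {S R C : Type} [Fintype S] [DecidableEq S] [Fintype R] [DecidableEq R] [Nonempty R]
    [Fintype C] [Nonempty C] (fam : S → R → C → ℤ) (hPH : ∀ s, PH (fam s))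
    (hint : ∀ w, (∀ s, InU (fam s) w) → Good (Fintype.card C) w) (s0 : S) :
    ∃ r N : ℕ, 1 ≤ r ∧ ∀ n ≥ N, ∃ F : Finset (Fin n → Bool), IsFacet r F ∧
      F.card * Fintype.card C ≤ 2 * r * Fintype.card R := by
  classical
  obtain ⟨n, hn1, hcore⟩ := core fam (fun s => (hPH s).1) hint s0
  set M : ℕ := Fintype.card (S × Fin n → X) with hM
  set τ : ℕ := Fintype.card C with hτ
  have hτ1 : 1 ≤ τ := Fintype.card_pos
  obtain ⟨m, hm⟩ : ∃ m, Fintype.card (S × Fin n) = m + 1 := by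
    have : Nonempty (S × Fin n) := ⟨(s0, ⟨0, hn1⟩)⟩
    exact ⟨Fintype.card (S × Fin n) - 1, by have := Fintype.card_pos (α := S × Fin n); omega⟩
  have hM4 : M = 4 * 4 ^ m := by
    have h := card_G (κ := S × Fin n)
    rw [hm, pow_succ'] at h
    exact_mod_cast h
  have h4 : 1 ≤ 4 ^ m := Nat.one_le_pow _ _ (by norm_num)
  set A : (S × Fin n → X) × R → {j : S × Fin n → X // j ≠ 0} × C → ℤ :=
    fun x c => chi x.1 c.1.1 * fam (sel s0 c.1.1) x.2 c.2 with hA
  have hsumA : ∀ g : (S × Fin n → X) → C → ℤ,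
      ∑ c : {j : S × Fin n → X // j ≠ 0} × C, g c.1.1 c.2 = ∑ j ∈ univ.erase 0, ∑ b, g j b := by
    intro g
    rw [Fintype.sum_prod_type]
    exact (Finset.sum_subtype (univ.erase 0) (by simp) (fun j => ∑ b, g j b)).symm
  have hcard : Fintype.card ({j : S × Fin n → X // j ≠ 0} × C) + τ = 2 * (2 * 4 ^ m * τ) := by
    rw [Fintype.card_prod, Fintype.card_subtype_compl, Fintype.card_subtype_eq, ← hM, ← hτ, hM4]
    obtain ⟨z, hz⟩ : ∃ z, 4 ^ m = z + 1 := ⟨4 ^ m - 1, by omega⟩
    rw [hz, show 4 * (z + 1) - 1 = 4 * z + 3 by omega]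
    ring
  have hgram : ∀ x x' : (S × Fin n → X) × R, ∑ c, A x c * A x' c
      = if x.2 = x'.2 then (τ : ℤ) * ((if x.1 = x'.1 then (M : ℤ) else 0) - 1) else 0 := by
    intro x x'
    rw [hsumA (fun j b => (chi x.1 j * fam (sel s0 j) x.2 b) * (chi x'.1 j * fam (sel s0 j) x'.2 b))]
    have e1 : ∀ j, ∑ b, (chi x.1 j * fam (sel s0 j) x.2 b) * (chi x'.1 j * fam (sel s0 j) x'.2 b)
        = chi (x.1 + x'.1) j * ∑ b, fam (sel s0 j) x.2 b * fam (sel s0 j) x'.2 b := by
      intro j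
      rw [Finset.mul_sum, chi_add]
      exact Finset.sum_congr rfl (fun b _ => by ring)
    simp only [e1]
    by_cases h : x.2 = x'.2
    · rw [if_pos h, ← h]
      have e2 : ∀ j : S × Fin n → X, ∑ b, fam (sel s0 j) x.2 b * fam (sel s0 j) x.2 b = τ := by
        intro j
        have : ∀ b, fam (sel s0 j) x.2 b * fam (sel s0 j) x.2 b = 1 := fun b => by
          rcases (hPH (sel s0 j)).1 x.2 b with h | h <;> simp [h]
        simp [this, hτ]
      simp only [e2]
      rw [← Finset.sum_mul, mul_comm]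
      congr 1
      have e3 := sum_chi (x.1 + x'.1)
      rw [← Finset.add_sum_erase _ _ (Finset.mem_univ (0 : S × Fin n → X)), chi_zero'] at e3
      simp only [add_eq_zero_iff'] at e3
      linarith
    · rw [if_neg h]
      exact Finset.sum_eq_zero (fun j _ => by rw [(hPH _).2 _ _ h, mul_zero])
  refine ⟨2 * 4 ^ m * τ, Fintype.card ({j : S × Fin n → X // j ≠ 0} × C), by nlinarith,
    fun N hN => ?_⟩
  have key := facet_of_design A (fun x c => pm_mul (chi_pm _ _) ((hPH _).1 _ _)) τ _ hcard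
    (fun x x' => by
      rw [hgram]
      have : (0 : ℤ) ≤ τ := by positivity
      have : (0 : ℤ) ≤ M := by positivity
      split_ifs <;> nlinarith)
    (fun x => by
      obtain ⟨i', hi'⟩ := Fintype.exists_ne_of_one_lt_card (α := S × Fin n → X)
        (by rw [← hM]; omega) x.1
      refine ⟨(i', x.2), ?_⟩
      rw [hgram]
      simp [hi'])
    (fun y hy hx => by
      obtain ⟨i, a, hia⟩ := hcore (fun j b => if h : j = 0 then 1 else y (⟨j, h⟩, b))
        (fun j b => by
          split_ifs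
          · simp
          · exact hy _)
        (fun i a => by
          rw [← hsumA (fun j b => chi i j * fam (sel s0 j) a b *
            if h : j = 0 then 1 else y (⟨j, h⟩, b))]
          refine le_of_le_of_eq (hx (i, a)) (Finset.sum_congr rfl (fun c _ => ?_))
          rw [dif_neg c.1.2])
      refine ⟨(i, a), ?_⟩
      funext c
      have := hia c.1.1 c.1.2 c.2
      rw [dif_neg c.1.2] at this
      exact this) N hN
  obtain ⟨F, hF, key⟩ := key
  refine ⟨F, hF, ?_⟩
  rw [Fintype.card_prod, ← hM, hM4] at key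
  calc F.card * τ ≤ (4 * 4 ^ m * Fintype.card R) * τ :=
        Nat.mul_le_mul_right _ key
    _ = _ := by ring

end Pool.Agent.MP_6132b6_co

end

-- part MP_6132b6_co.Inner
section

namespace Pool.Agent.MP_6132b6_co

open Finset

def Had {Y : Type} [Fintype Y] (H : Y → Y → ℤ) : Prop := PH H ∧ PH (fun a b => H b a)

theorem PH.sq {R C : Type} [Fintype C] {B : R → C → ℤ} (h : PH B) (a : R) :
    ∑ b, B a b * B a b = Fintype.card C := by
  have : ∀ b, B a b * B a b = 1 := fun b => by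
    rcases h.1 a b with h | h <;> simp [h]
  simp [this]

theorem PH.kron {R C R' C' : Type} [Fintype C] [Fintype C'] {B : R → C → ℤ} {B' : R' → C' → ℤ}
    (h : PH B) (h' : PH B') : PH (fun (a : R × R') (b : C × C') => B a.1 b.1 * B' a.2 b.2) := by
  refine ⟨fun a b => pm_mul (h.1 _ _) (h'.1 _ _), fun a a' hne => ?_⟩
  have e1 : ∑ b : C × C', B a.1 b.1 * B' a.2 b.2 * (B a'.1 b.1 * B' a'.2 b.2)
      = (∑ b, B a.1 b * B a'.1 b) * (∑ b, B' a.2 b * B' a'.2 b) := by
    rw [Finset.sum_mul_sum, Fintype.sum_prod_type]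
    exact Finset.sum_congr rfl (fun b _ => Finset.sum_congr rfl (fun b' _ => by ring))
  rw [e1]
  by_cases h1 : a.1 = a'.1
  · have h2 : a.2 ≠ a'.2 := fun h2 => hne (Prod.ext h1 h2)
    rw [h'.2 _ _ h2, mul_zero]
  · rw [h.2 _ _ h1, zero_mul]

theorem PH.reindex {R C R' C' : Type} [Fintype C] [Fintype C'] {B : R → C → ℤ} (h : PH B)
    (f : R' → R) (hf : Function.Injective f) (g : C' ≃ C) : PH (fun a b => B (f a) (g b)) := by
  refine ⟨fun a b => h.1 _ _, fun a a' hne => ?_⟩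
  rw [Equiv.sum_comp g (fun b => B (f a) b * B (f a') b)]
  exact h.2 _ _ (fun h => hne (hf h))

def HadN (n : ℕ) : Prop := ∃ H : Fin n → Fin n → ℤ, Had H

theorem HadN.on {n : ℕ} (h : HadN n) (Y : Type) [Fintype Y] (hY : Fintype.card Y = n) :
    ∃ H : Y → Y → ℤ, Had H := by
  obtain ⟨H, h1, h2⟩ := h
  let g : Y ≃ Fin n := Fintype.equivFinOfCardEq hY
  exact ⟨fun a b => H (g a) (g b), h1.reindex g g.injective g, h2.reindex g g.injective g⟩

theorem HadN.mul {m n : ℕ} (h : HadN m) (h' : HadN n) : HadN (m * n) := by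
  obtain ⟨H, h1, h2⟩ := h
  obtain ⟨H', h1', h2'⟩ := h'
  let g : Fin (m * n) ≃ Fin m × Fin n := finProdFinEquiv.symm
  exact ⟨fun a b => H (g a).1 (g b).1 * H' (g a).2 (g b).2,
    (h1.kron h1').reindex g g.injective g, (h2.kron h2').reindex g g.injective g⟩

theorem hadN_one : HadN 1 :=
  ⟨fun _ _ => 1, ⟨by simp, fun a a' h => absurd (Subsingleton.elim _ _) h⟩,
    ⟨by simp, fun a a' h => absurd (Subsingleton.elim _ _) h⟩⟩

theorem HadN.pow {m : ℕ} (h : HadN m) (e : ℕ) : HadN (m ^ e) := by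
  induction e with
  | zero => simpa using hadN_one
  | succ e ih => rw [pow_succ]; exact ih.mul h

def H4 : Fin 4 → Fin 4 → ℤ := ![![1, 1, 1, 1], ![1, -1, 1, -1], ![1, 1, -1, -1], ![1, -1, -1, 1]]

theorem hadN_four : HadN 4 := by
  refine ⟨H4, ⟨?_, ?_⟩, ⟨?_, ?_⟩⟩ <;> decide

def H12 : Fin 12 → Fin 12 → ℤ :=
  ![![1, 1, 1, 1, 1, 1, 1, 1, 1, 1, 1, 1],
  ![-1, 1, -1, 1, -1, -1, -1, 1, 1, 1, -1, 1],
  ![-1, 1, 1, -1, 1, -1, -1, -1, 1, 1, 1, -1],
  ![-1, -1, 1, 1, -1, 1, -1, -1, -1, 1, 1, 1],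
  ![-1, 1, -1, 1, 1, -1, 1, -1, -1, -1, 1, 1],
  ![-1, 1, 1, -1, 1, 1, -1, 1, -1, -1, -1, 1],
  ![-1, 1, 1, 1, -1, 1, 1, -1, 1, -1, -1, -1],
  ![-1, -1, 1, 1, 1, -1, 1, 1, -1, 1, -1, -1],
  ![-1, -1, -1, 1, 1, 1, -1, 1, 1, -1, 1, -1],
  ![-1, -1, -1, -1, 1, 1, 1, -1, 1, 1, -1, 1],
  ![-1, 1, -1, -1, -1, 1, 1, 1, -1, 1, 1, -1],
  ![-1, -1, 1, -1, -1, -1, 1, 1, 1, -1, 1, 1]]

theorem hadN_twelve : HadN 12 := by
  refine ⟨H12, ⟨?_, ?_⟩, ⟨?_, ?_⟩⟩ <;> decide +kernel

def AllU {R : Type} (C : Type) [Fintype C] (w : R → ℤ) : Prop :=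
  ∀ B : R → C → ℤ, PH B → InU B w

theorem AllU.flip {R C : Type} [Fintype C] {w : R → ℤ} (h : AllU C w) (d : R → ℤ)
    (hd : ∀ a, d a = 1 ∨ d a = -1) : AllU C (fun a => d a * w a) := by
  intro B hB
  have h1 : PH (fun a b => d a * B a b) := by
    refine ⟨fun a b => pm_mul (hd a) (hB.1 a b), fun a a' hne => ?_⟩
    have e1 : ∑ b, d a * B a b * (d a' * B a' b) = d a * d a' * ∑ b, B a b * B a' b := by
      rw [Finset.mul_sum]
      exact Finset.sum_congr rfl (fun b _ => by ring)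
    rw [e1, hB.2 _ _ hne, mul_zero]
  obtain ⟨y, hy, hw⟩ := h _ h1
  refine ⟨y, hy, fun a => ?_⟩
  show d a * w a = _
  rw [hw a, Finset.mul_sum]
  refine Finset.sum_congr rfl (fun b _ => ?_)
  rcases hd a with h | h <;> simp [h]

theorem AllU.perm {R C : Type} [Fintype C] {w : R → ℤ} (h : AllU C w) (σ : R ≃ R) :
    AllU C (fun a => w (σ a)) := by
  intro B hB
  obtain ⟨y, hy, hw⟩ := h _ (hB.reindex σ.symm σ.symm.injective (Equiv.refl C))
  exact ⟨y, hy, fun a => by simpa using hw (σ a)⟩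

theorem sum_flip {R : Type} [Fintype R] [DecidableEq R] (g : R → ℤ) (a : R) :
    ∑ a', g a' - ∑ a', (if a' = a then -1 else 1) * g a' = 2 * g a := by
  rw [← Finset.sum_sub_distrib]
  have : ∀ a', g a' - (if a' = a then -1 else 1) * g a' = if a' = a then 2 * g a' else 0 := by
    intro a'
    split_ifs <;> ring
  simp only [this, Finset.sum_ite_eq', Finset.mem_univ, if_true]

theorem odd_sum_pm {T : ℕ} (hT : Odd T) (g : Fin T → ℤ) (hg : ∀ t, g t = 1 ∨ g t = -1) :
    Odd (∑ t, g t) := by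
  have h1 : (2 : ℤ) ∣ ∑ t, (g t - 1) :=
    Finset.dvd_sum (fun t _ => by rcases hg t with h | h <;> simp [h])
  rw [Finset.sum_sub_distrib] at h1
  simp only [Finset.sum_const, Finset.card_univ, Fintype.card_fin, nsmul_eq_mul, mul_one] at h1
  obtain ⟨c, hc⟩ := h1
  obtain ⟨d, hd⟩ := hT
  exact ⟨c + d, by omega⟩

theorem repPH {R C : Type} [Fintype R] [Fintype C] {T : ℕ} (H : R → R → ℤ) (hH : PH H)
    (φ : C ≃ R × Fin T) : PH (fun a c => H a (φ c).1) := by
  refine ⟨fun a b => hH.1 _ _, fun a a' hne => ?_⟩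
  rw [Equiv.sum_comp φ (fun p => H a p.1 * H a' p.1), Fintype.sum_prod_type]
  simp only [Finset.sum_const, Finset.card_univ, Fintype.card_fin, nsmul_eq_mul]
  rw [← Finset.mul_sum, hH.2 _ _ hne, mul_zero]

theorem typeI {R C : Type} [Fintype R] [DecidableEq R] [Fintype C] {T : ℕ} (hT : Odd T)
    (H : R → R → ℤ) (hH : Had H) (φ : C ≃ R × Fin T) (b0 : R) {w : R → ℤ} (hw : AllU C w)
    (d : R → ℤ) (hd : ∀ a, d a = 1 ∨ d a = -1) :
    ∃ z : ℤ, Odd z ∧ |z| ≤ T ∧ ∑ a, d a * w a = Fintype.card R * z := by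
  obtain ⟨y, hy, h1⟩ := (hw.flip (fun a => d a * H a b0) (fun a => pm_mul (hd a) (hH.1.1 _ _)))
    _ (repPH H hH.1 φ)
  refine ⟨∑ t, y (φ.symm (b0, t)), odd_sum_pm hT _ (fun t => hy _), ?_, ?_⟩
  · simpa using sum_pm_le (fun t => y (φ.symm (b0, t))) (fun t => hy _)
  · have e1 : ∀ a, d a * w a = ∑ c, H a b0 * H a (φ c).1 * y c := by
      intro a
      have e2 : d a * w a = H a b0 * (d a * H a b0 * w a) := by
        rcases hH.1.1 a b0 with h | h <;> simp [h]
      have e3 : d a * H a b0 * w a = ∑ c, H a (φ c).1 * y c := h1 a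
      rw [e2, e3, Finset.mul_sum]
      exact Finset.sum_congr rfl (fun c _ => by ring)
    simp only [e1]
    rw [Finset.sum_comm, ← Equiv.sum_comp φ.symm, Fintype.sum_prod_type]
    simp only [Equiv.apply_symm_apply, ← Finset.sum_mul]
    rw [Finset.sum_eq_single b0]
    · rw [hH.2.sq b0, Finset.mul_sum]
    · intro b _ hb
      rw [hH.2.2 _ _ hb.symm]
      simp
    · simp

theorem typeII {R C : Type} [Fintype R] [DecidableEq R] [Fintype C] (T : ℤ) (hT : Odd T)
    (B : R → C → ℤ) (hB : PH B) (l : R → ℤ) (hl : ∀ c, T ∣ ∑ a, l a * B a c) (a0 : R)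
    (ha0 : l a0 = 1 ∨ l a0 = -1) {w : R → ℤ} (hw : AllU C w) (a : R) : T ∣ w a := by
  have key : ∀ w' : R → ℤ, AllU C w' → T ∣ ∑ a, l a * w' a := by
    intro w' hw'
    obtain ⟨y, -, h1⟩ := hw' B hB
    have e1 : ∑ a, l a * w' a = ∑ c, (∑ a, l a * B a c) * y c := by
      simp only [h1, Finset.mul_sum, Finset.sum_mul]
      rw [Finset.sum_comm]
      exact Finset.sum_congr rfl (fun c _ => Finset.sum_congr rfl (fun a _ => by ring))
    rw [e1]
    exact Finset.dvd_sum (fun c _ => Dvd.dvd.mul_right (hl c) _)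
  have h1 := key _ (hw.perm (Equiv.swap a0 a))
  have h2 := key _ ((hw.perm (Equiv.swap a0 a)).flip (fun a' => if a' = a0 then -1 else 1)
    (fun a' => by split_ifs <;> simp))
  have h3 := dvd_sub h1 h2
  have e1 := sum_flip (fun a' => l a' * w (Equiv.swap a0 a a')) a0
  simp only [mul_left_comm (l _)] at h3
  rw [e1, Equiv.swap_apply_left] at h3
  have hc : IsCoprime T 2 := by
    obtain ⟨m, hm⟩ := hT
    exact ⟨1, -m, by rw [hm]; ring⟩
  have h4 := hc.dvd_of_dvd_mul_left h3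
  rcases ha0 with h | h <;> simpa [h] using h4

theorem good_of {R C : Type} [Fintype R] [DecidableEq R] [Fintype C] {T : ℕ} (hT : Odd T)
    (hcop : Nat.Coprime (Fintype.card R) T)
    (H : R → R → ℤ) (hH : Had H) (φ : C ≃ R × Fin T)
    (B : R → C → ℤ) (hB : PH B) (l : R → ℤ) (hl : ∀ c, (T : ℤ) ∣ ∑ a, l a * B a c) (a0 : R)
    (ha0 : l a0 = 1 ∨ l a0 = -1) {w : R → ℤ} (hw : AllU C w) : Good (Fintype.card C) w := by
  have hC : (Fintype.card C : ℤ) = Fintype.card R * T := by
    rw [Fintype.card_congr φ]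
    simp
  have hk : (0 : ℤ) < Fintype.card R := by
    have : Nonempty R := ⟨a0⟩
    exact_mod_cast Fintype.card_pos
  have hdiv : ∀ a, (Fintype.card C : ℤ) ∣ w a := by
    intro a
    rw [hC]
    refine IsCoprime.mul_dvd (Nat.isCoprime_iff_coprime.mpr hcop) ?_
      (typeII T (by exact_mod_cast hT) B hB l hl a0 ha0 hw a)
    obtain ⟨z, ⟨m, hm⟩, -, h1⟩ := typeI hT H hH φ a0 hw (fun _ => 1) (by simp)
    obtain ⟨z', ⟨m', hm'⟩, -, h2⟩ := typeI hT H hH φ a0 hw (fun a' => if a' = a then -1 else 1)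
      (fun a' => by split_ifs <;> simp)
    have e1 := sum_flip w a
    simp only [one_mul] at h1
    rw [h1, h2, hm, hm'] at e1
    exact ⟨m - m', by linarith⟩
  obtain ⟨z, hz, hz2, h1⟩ := typeI hT H hH φ a0 hw (fun a => if 0 ≤ w a then 1 else -1)
    (fun a' => by split_ifs <;> simp)
  have e1 : ∀ a, (if 0 ≤ w a then 1 else -1) * w a = |w a| := by
    intro a
    split_ifs with h
    · simp [abs_of_nonneg h]
    · rw [abs_of_neg (not_le.mp h)]
      ring
  simp only [e1] at h1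
  have h2 : ∑ a, |w a| ≤ Fintype.card C := by
    rw [h1, hC]
    exact mul_le_mul_of_nonneg_left (le_trans (le_abs_self _) hz2) hk.le
  have h3 : ∃ a, w a ≠ 0 := by
    by_contra hc
    push Not at hc
    simp only [hc, abs_zero, Finset.sum_const_zero] at h1
    obtain ⟨m, hm⟩ := hz
    rcases mul_eq_zero.mp h1.symm with h | h <;> omega
  obtain ⟨a, ha⟩ := h3
  have h4 : (Fintype.card C : ℤ) ≤ |w a| :=
    Int.le_of_dvd (abs_pos.mpr ha) ((dvd_abs _ _).mpr (hdiv a))
  rw [← Finset.add_sum_erase _ _ (Finset.mem_univ a)] at h2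
  have h5 : 0 ≤ ∑ a' ∈ univ.erase a, |w a'| := Finset.sum_nonneg (fun _ _ => abs_nonneg _)
  refine ⟨a, ?_, fun a' ha' => ?_⟩
  · exact (abs_eq (by positivity)).mp (by linarith)
  · have h6 : ∑ a' ∈ univ.erase a, |w a'| = 0 := by linarith
    have := (Finset.sum_eq_zero_iff_of_nonneg (fun _ _ => abs_nonneg _)).mp h6 a'
      (by simp [ha'])
    simpa using this

theorem main (e : ℕ) : ∃ r N : ℕ, 1 ≤ r ∧ ∀ n ≥ N, ∃ Z : Finset (Fin n → Bool), IsFacet r Z ∧
    Z.card * 3 ^ e ≤ 2 * r := by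
  classical
  let C := Fin (4 ^ e) × Fin (12 ^ e)
  have hC : Fintype.card C = 16 ^ e * 3 ^ e := by
    simp only [C, Fintype.card_prod, Fintype.card_fin, ← mul_pow]
    norm_num
  let α0 : Fin (4 ^ e) := ⟨0, by positivity⟩
  let β0 : Fin (12 ^ e) := ⟨0, by positivity⟩
  obtain ⟨P, hP1, -, hP2⟩ := Finset.exists_subsuperset_card_eq
    (s := ({α0} ×ˢ univ : Finset C)) (t := univ) (n := 16 ^ e) (Finset.subset_univ _)
    (by
      rw [Finset.card_product]
      simp only [Finset.card_singleton, Finset.card_univ, Fintype.card_fin, one_mul]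
      exact Nat.pow_le_pow_left (by norm_num) _)
    (by
      rw [Finset.card_univ, hC]
      exact Nat.le_mul_of_pos_right _ (by positivity))
  let R := {c : C // c ∈ P}
  have hR : Fintype.card R = 16 ^ e := by
    simp only [R, Fintype.card_coe, hP2]
  obtain ⟨H, hH⟩ := ((hadN_four.mul hadN_four).pow e).on R hR
  obtain ⟨F, hF⟩ := hadN_four.pow e
  obtain ⟨E, hE⟩ := hadN_twelve.pow e
  let φ : C ≃ R × Fin (3 ^ e) := Fintype.equivOfCardEq (by
    rw [hC, Fintype.card_prod, hR, Fintype.card_fin])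
  let a0 : R := ⟨(α0, β0), hP1 (by simp)⟩
  have hB : PH (fun (a : R) (c : C) => F a.1.1 c.1 * E a.1.2 c.2) :=
    (hF.1.kron hE.1).reindex (fun a : R => a.1) Subtype.val_injective (Equiv.refl _)
  have hgood : ∀ w : R → ℤ, AllU C w → Good (Fintype.card C) w := by
    intro w hw
    refine good_of (T := 3 ^ e) (Odd.pow (by decide)) ?_ H hH φ _ hB
      (fun a => if a.1.1 = α0 then E a.1.2 β0 else 0) ?_ a0 ?_ hw
    · rw [hR]
      exact Nat.Coprime.pow _ _ (by norm_num)
    · intro c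
      have e1 : ∑ a : R, (if a.1.1 = α0 then E a.1.2 β0 else 0) * (F a.1.1 c.1 * E a.1.2 c.2)
          = F α0 c.1 * ∑ β, E β β0 * E β c.2 := by
        rw [← Finset.sum_subtype P (fun _ => Iff.rfl)
          (fun a : C => (if a.1 = α0 then E a.2 β0 else 0) * (F a.1 c.1 * E a.2 c.2)),
          ← Finset.sum_subset hP1, Finset.sum_product, Finset.sum_singleton, Finset.mul_sum]
        · exact Finset.sum_congr rfl (fun β _ => by simp only [if_true]; ring)
        · intro a _ ha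
          have : a.1 ≠ α0 := fun h => ha (Finset.mem_product.mpr ⟨by simp [h], Finset.mem_univ _⟩)
          simp [this]
      rw [e1]
      refine Dvd.dvd.mul_left ?_ _
      by_cases h : β0 = c.2
      · rw [← h, hE.2.sq β0, Fintype.card_fin]
        exact_mod_cast pow_dvd_pow_of_dvd (by norm_num) e
      · rw [hE.2.2 _ _ h]
        simp
    · simpa [a0] using hE.1.1 β0 β0
  let sg : (R → C → Bool) → R → C → ℤ := fun s a c => if s a c = true then -1 else 1
  let B0 : R → C → ℤ := fun a c => F a.1.1 c.1 * E a.1.2 c.2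
  have : Nonempty R := ⟨a0⟩
  have : Nonempty C := ⟨(α0, β0)⟩
  obtain ⟨r, N, hr, h⟩ := outer (S := R → C → Bool) (fun s => if PH (sg s) then sg s else B0)
    (fun s => by
      split_ifs with h
      · exact h
      · exact hB)
    (fun w hw => hgood w (fun B hB' => by
      have e1 : sg (fun a c => decide (B a c = -1)) = B := by
        funext a c
        rcases hB'.1 a c with h | h <;> simp [sg, h]
      have := hw (fun a c => decide (B a c = -1))
      rw [e1, if_pos hB'] at this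
      exact this)) (fun _ _ => true)
  refine ⟨r, N, hr, fun n hn => ?_⟩
  obtain ⟨Z, hZ, h1⟩ := h n hn
  refine ⟨Z, hZ, ?_⟩
  rw [hC, hR] at h1
  have h2 : (Z.card * 3 ^ e) * 16 ^ e ≤ (2 * r) * 16 ^ e := by
    calc _ = Z.card * (16 ^ e * 3 ^ e) := by ring
      _ ≤ _ := h1
  exact Nat.le_of_mul_le_mul_right h2 (by positivity)

end Pool.Agent.MP_6132b6_co

end
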